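import Mathlib

set_option autoImplicit false

namespace Pool.Agent.Results.MP_89824e_co.Stabilizer4

/-- `σ` is an automorphism of the digraph with arc relation `A`. -/
def IsAut {n : ℕ} (A : Fin n → Fin n → Prop) (σ : Fin n → Fin n) : Prop :=
  Function.Bijective σ ∧ ∀ x y, A (σ x) (σ y) ↔ A x y

def tb (T i : ℕ) : ℕ := (T >>> (7 * i)) % 128

def o1 (i : ℕ) : ℕ := tb 432372242205378546148680361771182013602274910067069418049429281389664619853445254853572771960326891248291098162968167421461559562239704485083075243351989995053119622177345290497 i
def o2 (i : ℕ) : ℕ := tb 519619735903527251711366054192055807293125583008185597607382174260543813743004124420819765060292461503617456792948490136476051091860449920963202108057947397631408382205447620874 i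
def i1 (i : ℕ) : ℕ := tb 642886412869574023804497914861261950756818362682279756181349460960172197738330685456477606145760504679326104508327179757911333232834074251189461178606305354474087987738985906205 i
def i2 (i : ℕ) : ℕ := tb 653113916171876721658253231600453744867752356794893074862396519571658415291075276978842273556381480159462087998937665264135355467650136074291129453642752914637228874821624153282 i

def arc (x y : ℕ) : Bool := o1 x == y || o2 x == y

def L1 : List ℕ := [348894578403901045737568331466142113737506618856497656958091489613808310188144158587791653490941725251269712803193600417696793471057284689988660583602067930353867516881045340417, 554673373480904924466670097859598839683604171293234392310548779073917086473700639174837710304265200091407528198890921488501104140555836328947460442087494580241757777352221769985, 348894578314650981314118724604350798638841912113618857446577648093423288600570234851046209871148336941729300456394267330487247118608016548340410997097988836343757601670533875969, 554673373539191152418907653995113704464406164085168264680414096250516877735091607198292925925675105616717919473338945392206504942544553765846753496813063182717499200500212173057]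
def L2 : List ℕ := [142532364458913503890668142274610608229768040793547019270936448717866188415876279992900052839028683871508633698953288362201882852266852150045898239372614550842785420843462350346, 15899259789297698390802401775212511200664020571383125484341110612321752714222056932987649652952326478264454004079500224626675452154787568664834371666653604036653287449010329098, 15899259079552153714228256133920790168766357968890123101500619614736416616416851514692586433457274929788203716239974899989942557857024113123085876429426340261914122016225567498, 142532363631182772913408109461746231592166878687658871183203410181486227104063134143301757929778647353821571598082084522478680091643251045982452920206103904615478935853265445642]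
def W : List (List Bool) := [[true, true, false, false, true, true], [true, true, true, false, true, true, false, true, true, true], [false, true, false, false, false, false], [true, true, false, true, false, true], [true, true, true, true, false, true, false, true, true, true, true, true], [true, false, false, true, false, false, true, false], [false, true, true, true, true, true, false, true, true, true, true, true], [true, false, true, true, false, false, true, false, true, true, true, true], [false, true, false, false, true, false, false, true], [true, true, false, false, false, false, true, false, true, true, true, true], [true, false, true, true, true, true], [false, true, true, false, true, true, false, true], [false, true, true, true, true, true], [true, true, false, true, true, false, true, true], [true, true, false, false, false, false]]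
def rk (i : ℕ) : ℕ := tb 55776896665971045542131048998440655640610323803709516792755683950695182316943690046428947425049863819628219087480765076648815101282987384359072416574329620623256811696625320064 i

def ok (f : ℕ → ℕ) (i c : ℕ) : Bool :=
  (Nat.ble i (i1 i) || arc (f (i1 i)) c) && (Nat.ble i (i2 i) || arc (f (i2 i)) c) &&
  (Nat.ble i (o1 i) || arc c (f (o1 i))) && (Nat.ble i (o2 i) || arc c (f (o2 i))) &&
  (List.range i).all fun j => f j != c

def chk (L : List ℕ) : ℕ → ℕ → (ℕ → ℕ) → Bool
  | 0, _, f => L.any fun T => (List.range 84).all fun j => f j == tb T j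
  | k + 1, i, f => (List.range 84).all fun c =>
      !ok f i c || chk L k (i + 1) fun j => if j = i then c else f j

def A (x y : Fin 84) : Prop := arc x y = true

instance : DecidableRel A := fun x y => inferInstanceAs (Decidable (arc x y = true))

theorem tabs : ∀ i < 84, arc (i1 i) i = true ∧ arc (i2 i) i = true ∧ arc i (o1 i) = true ∧
    arc i (o2 i) = true := by decide +kernel

theorem chk_ok (L : List ℕ) (σ : Fin 84 → Fin 84) (hσ : IsAut A σ) (k : ℕ) : ∀ (i : ℕ) (f : ℕ → ℕ), k + i = 84 →
    (∀ j : Fin 84, j.1 < i → f j = (σ j : ℕ)) → chk L k i f = true →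
    ∃ T ∈ L, ∀ j : Fin 84, (σ j : ℕ) = tb T j := by
  induction k with
  | zero =>
    intro i f h1 h2 h3
    simp only [chk, List.any_eq_true, List.all_eq_true, List.mem_range, beq_iff_eq] at h3
    obtain ⟨T, k1, k2⟩ := h3
    exact ⟨T, k1, fun j => by rw [← h2 j (by omega), k2 j j.2]⟩
  | succ k ih =>
    intro i f h1 h2 h3
    have hi : i < 84 := by omega
    simp only [chk, List.all_eq_true, List.mem_range, Bool.or_eq_true, Bool.not_eq_true'] at h3
    obtain ⟨t1, t2, t3, t4⟩ := tabs i hi
    have e1 : ∀ j, arc j i = true → i ≤ j ∨ arc (f j) (σ ⟨i, hi⟩) = true := fun j hj => by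
      refine (le_or_gt i j).imp id fun h => ?_
      rw [h2 ⟨j, h.trans hi⟩ h]
      exact (hσ.2 ⟨j, h.trans hi⟩ ⟨i, hi⟩).2 hj
    have e2 : ∀ j, arc i j = true → i ≤ j ∨ arc (σ ⟨i, hi⟩) (f j) = true := fun j hj => by
      refine (le_or_gt i j).imp id fun h => ?_
      rw [h2 ⟨j, h.trans hi⟩ h]
      exact (hσ.2 ⟨i, hi⟩ ⟨j, h.trans hi⟩).2 hj
    rcases h3 (σ ⟨i, hi⟩) (σ _).2 with h | h
    · exfalso
      rw [← Bool.not_eq_true] at h
      apply h
      simp only [ok, Bool.and_eq_true, Bool.or_eq_true, Nat.ble_eq, List.all_eq_true,
        List.mem_range, bne_iff_ne]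
      refine ⟨⟨⟨⟨e1 _ t1, e1 _ t2⟩, e2 _ t3⟩, e2 _ t4⟩, fun j hj e => ?_⟩
      rw [h2 ⟨j, hj.trans hi⟩ hj] at e
      have := congrArg Fin.val (hσ.1.1 (Fin.ext e))
      simp only at this
      omega
    · refine ih (i + 1) _ (by omega) (fun j hj => ?_) h
      split_ifs with e
      · subst e; rfl
      · exact h2 j (by omega)

theorem c1 : chk L1 83 1 (fun _ => 1) = true := by decide +kernel

theorem c2 : chk L2 83 1 (fun _ => 10) = true := by decide +kernel

def ev (S T : ℕ) (w : List Bool) (x : ℕ) : ℕ := w.foldr (fun b y => tb (if b then S else T) y) x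

theorem words : ∀ S ∈ L1, ∀ T ∈ L2, ∃ w ∈ W, ∃ w' ∈ W, ev S T w 0 = 0 ∧ ev S T w' 0 = 0 ∧
    ev S T w 2 ≠ 2 ∧ ev S T w' 2 ≠ 2 ∧ ev S T w 2 ≠ ev S T w' 2 := by decide +kernel

def gen (b : Bool) (x : Fin 84) : Fin 84 :=
  ⟨tb (if b then L1.headD 0 else L2.headD 0) x % 84, Nat.mod_lt _ (by omega)⟩

theorem gen_aut (b : Bool) : IsAut A (gen b) := by
  refine ⟨Finite.injective_iff_bijective.1 ?_, ?_⟩ <;> revert b <;> decide +kernel

theorem orbit (v : Fin 84) : ∃ σ, IsAut A σ ∧ σ 0 = v := by
  have h : ∀ v : Fin 84, v = 0 ∨ ∃ b u, rk u.1 < rk v ∧ gen b u = v := by decide +kernel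
  induction hk : rk v using Nat.strong_induction_on generalizing v with
  | _ k ih =>
    rcases h v with rfl | ⟨b, u, h1, rfl⟩
    · exact ⟨id, ⟨Function.bijective_id, fun _ _ => Iff.rfl⟩, rfl⟩
    · obtain ⟨σ, k1, rfl⟩ := ih _ (hk ▸ h1) u rfl
      exact ⟨gen b ∘ σ, ⟨(gen_aut b).1.comp k1.1, fun x y => ((gen_aut b).2 _ _).trans (k1.2 x y)⟩,
        rfl⟩

/-- A loopless vertex-transitive digraph of out-degree 2 on which every finite group acting
transitively by automorphisms has vertex stabilizers of order greater than 2. -/
theorem result : ∃ (n : ℕ) (A : Fin n → Fin n → Prop), 0 < n ∧ (∀ x, ¬ A x x) ∧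
    (∀ x, {y | A x y}.ncard = 2) ∧ (∀ x y, ∃ σ, IsAut A σ ∧ σ x = y) ∧
    ∀ (G : Type) [Group G] [Finite G] [MulAction G (Fin n)], MulAction.IsPretransitive G (Fin n) →
      (∀ g : G, IsAut A fun x => g • x) → ∀ v : Fin n, 2 < Nat.card (MulAction.stabilizer G v) := by
  refine ⟨84, A, by omega, by decide +kernel, fun x => ?_, fun x y => ?_, fun G _ _ _ ht hG v => ?_⟩
  · rw [Set.ncard_eq_toFinset_card', Set.toFinset_ofPred]
    revert x
    decide +kernel
  · obtain ⟨σ, h1, rfl⟩ := orbit x
    obtain ⟨τ, h2, rfl⟩ := orbit y
    let e := Equiv.ofBijective σ h1.1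
    refine ⟨τ ∘ e.symm, ⟨h2.1.comp e.symm.bijective, fun a b => (h2.2 _ _).trans ?_⟩,
      congrArg τ (e.symm_apply_apply 0)⟩
    rw [← h1.2]
    exact iff_of_eq (congrArg₂ A (e.apply_symm_apply a) (e.apply_symm_apply b))
  · have hc : Nat.card (MulAction.stabilizer G v) =
        Nat.card (MulAction.stabilizer G (0 : Fin 84)) := by
      have a1 := (MulAction.stabilizer G v).card_mul_index
      have a2 := (MulAction.stabilizer G (0 : Fin 84)).card_mul_index
      rw [MulAction.index_stabilizer_of_transitive, Nat.card_fin] at a1 a2
      omega
    obtain ⟨g, hg⟩ := ht.exists_smul_eq (0 : Fin 84) 1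
    obtain ⟨h, hh⟩ := ht.exists_smul_eq (0 : Fin 84) 10
    obtain ⟨S, s1, s2⟩ := chk_ok L1 _ (hG g) _ 1 _ rfl (fun j hj => by
      rw [show j = 0 by omega, hg]; rfl) c1
    obtain ⟨T, t1, t2⟩ := chk_ok L2 _ (hG h) _ 1 _ rfl (fun j hj => by
      rw [show j = 0 by omega, hh]; rfl) c2
    have hw : ∀ w : List Bool, ∃ k : G, ∀ x : Fin 84, ((k • x : Fin 84) : ℕ) = ev S T w x := by
      intro w
      induction w with
      | nil => exact ⟨1, fun x => by rw [one_smul]; rfl⟩
      | cons b w ih =>
        obtain ⟨k, hk⟩ := ih
        refine ⟨(if b then g else h) * k, fun x => ?_⟩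
        rw [mul_smul, ev, List.foldr_cons, ← ev, ← hk]
        cases b
        exacts [t2 _, s2 _]
    obtain ⟨w, -, w', -, k1, k2, k3, k4, k5⟩ := words S s1 T t1
    obtain ⟨a, ha⟩ := hw w
    obtain ⟨b, hb⟩ := hw w'
    have := Fintype.ofFinite (MulAction.stabilizer G (0 : Fin 84))
    rw [hc, Nat.card_eq_fintype_card, Fintype.two_lt_card_iff]
    refine ⟨1, ⟨a, Fin.ext ((ha 0).trans k1)⟩, ⟨b, Fin.ext ((hb 0).trans k2)⟩, fun e => k3 ?_,
      fun e => k4 ?_, fun e => k5 ?_⟩
    · have := ha 2
      rw [← show 1 = a from congrArg Subtype.val e, one_smul] at this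
      exact this.symm
    · have := hb 2
      rw [← show 1 = b from congrArg Subtype.val e, one_smul] at this
      exact this.symm
    · have := hb 2
      rw [← show a = b from congrArg Subtype.val e, ha] at this
      exact this

end Pool.Agent.Results.MP_89824e_co.Stabilizer4
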